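import Pool.Agent.W207.PU.All

/-!
# Pair correlation from one-sided bounds for windows of two lengths, without RH

No hypothesis is assumed.  Let `L` be a set of positive numbers that generates a dense subgroup of
the reals, for instance two numbers with irrational ratio.  Suppose that almost all zeros are on the
critical line and that for each length `ℓ` in `L` the number of pairs with normalised difference in
the window `[a, a + ℓ]`, `a > 0`, satisfies one of the two one-sided bounds

`N(T; a, a+ℓ) ≥ (∫ F - C exp(-ca) - o(1)) T log T / 2π`, or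
`N(T; a, a+ℓ) ≤ (∫ F + C exp(-ca) + o(1)) T log T / 2π`, for all `a > 0`.

Then `N(T; α, β) ~ (T log T / 2π) ∫_α^β F` for all `0 < α < β`.  Conversely the pair correlation
conjecture implies all this.

Idea of the proof.  Montgomery's theorem for test functions of small support holds without RH if
almost all zeros are on the line: the contribution of the zeros off the line is controlled by the
fourth moment of the number of zeros in intervals of length `1/log T`, weighted by
`exp(κ |β - 1/2| log T)`, which is bounded by mollified mean squares of `ζ` at and to the left of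
the critical line (Selberg).  So the deviation `O` of the pair count, extended to an odd function,
has a spectral gap, hence so has the even function `O(v + ℓ/2) - O(v - ℓ/2)`; it is
one-sided up to an exponentially small amount, so it vanishes (its moments against a rapidly
decreasing weight vanish and it decays exponentially in the mean).  So `O` has the period `ℓ` for
each `ℓ` in `L`; it is a monotone function minus a continuous one, therefore constant on the
positive half line, and as it is odd and periodic the constant is `0`.
-/

open Filter Topology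

namespace W207.PU.Old.WindowsNoRH

/-- the multiplicity of `s` as a zero of the Riemann zeta function -/
noncomputable def mult (s : ℂ) : ℕ := analyticOrderNatAt riemannZeta s

/-- the nontrivial zeros of `ζ` with ordinate in `[0, T]` -/
def zeros (T : ℝ) : Set ℂ := {s : ℂ | riemannZeta s = 0 ∧ 0 < s.re ∧ s.re < 1 ∧ 0 ≤ s.im ∧ s.im ≤ T}

/-- `N(T; α, β)`: the number of pairs of ordinates in `[0, T]`, counted with multiplicity, whose
difference times `log T / 2π` lies in `[α, β]` -/
noncomputable def N (T α β : ℝ) : ℕ :=
  ∑ᶠ s ∈ zeros T, ∑ᶠ s' ∈ {s' : ℂ | s' ∈ zeros T ∧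
    α ≤ (s.im - s'.im) * Real.log T / (2 * Real.pi) ∧
    (s.im - s'.im) * Real.log T / (2 * Real.pi) ≤ β}, mult s * mult s'

/-- the sets of zeros are finite -/
theorem finite_zeros (T : ℝ) : (zeros T).Finite := W207.PR.Zc_finite T

/-- the nontrivial zeros of `ζ` with ordinate in `(0, T]` -/
def zerosP (T : ℝ) : Set ℂ := {s : ℂ | riemannZeta s = 0 ∧ 0 < s.re ∧ s.re < 1 ∧ 0 < s.im ∧ s.im ≤ T}

/-- the number of zeros with ordinate in `(0, T]`, with multiplicity -/
noncomputable def Nall (T : ℝ) : ℕ := ∑ᶠ s ∈ zerosP T, mult s

/-- the number of zeros with ordinate in `(0, T]` off the critical line, with multiplicity -/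
noncomputable def Noff (T : ℝ) : ℕ := ∑ᶠ s ∈ {s : ℂ | s ∈ zerosP T ∧ s.re ≠ 1 / 2}, mult s

/-- the predicted count `∫_α^β F(u) du`, `F(u) = 1 - (sin πu / πu)²` -/
noncomputable def IF (α β : ℝ) : ℝ :=
  ∫ u in α..β, (1 - (Real.sin (Real.pi * u) / (Real.pi * u)) ^ 2)

/-- the pair correlation conjecture, `T → ∞` along the filter `l` -/
def PairCorrelation (l : Filter ℝ) : Prop := ∀ α β : ℝ, 0 < α → α < β →
  Tendsto (fun T => (N T α β : ℝ) / (T * Real.log T / (2 * Real.pi))) l (𝓝 (IF α β))

/-- almost all zeros are on the critical line -/
def AlmostAllCritical (l : Filter ℝ) : Prop := Tendsto (fun T => (Noff T : ℝ) / Nall T) l (𝓝 0)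

/-- the lower bound for the windows of length `ℓ` -/
def Lower (l : Filter ℝ) (ℓ : ℝ) : Prop := ∃ C c : ℝ, 0 < c ∧ ∀ a : ℝ, 0 < a → ∀ ε : ℝ, 0 < ε →
  ∀ᶠ T in l, (IF a (a + ℓ) - C * Real.exp (-(c * a)) - ε) * (T * Real.log T / (2 * Real.pi)) ≤
    N T a (a + ℓ)

/-- the upper bound for the windows of length `ℓ` -/
def Upper (l : Filter ℝ) (ℓ : ℝ) : Prop := ∃ C c : ℝ, 0 < c ∧ ∀ a : ℝ, 0 < a → ∀ ε : ℝ, 0 < ε →
  ∀ᶠ T in l, (N T a (a + ℓ) : ℝ) ≤
    (IF a (a + ℓ) + C * Real.exp (-(c * a)) + ε) * (T * Real.log T / (2 * Real.pi))

/-- **Windows of two incommensurable lengths.**  Along every countably generated filter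
`l ≤ atTop` (for instance `l = atTop`, or a sequence of heights tending to infinity) and for every
set `L` of positive numbers generating a dense subgroup of `ℝ`: the pair correlation conjecture for
all windows is equivalent to the conjunction of `almost all zeros are on the critical line` and
one-sided bounds (lower or upper, for each length separately) for the windows of the lengths
`ℓ ∈ L`. -/
theorem result (l : Filter ℝ) [l.IsCountablyGenerated] (hl : l ≤ atTop) (L : Set ℝ)
    (hL : ∀ ℓ ∈ L, 0 < ℓ) (hd : Dense (AddSubgroup.closure L : Set ℝ)) :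
    PairCorrelation l ↔ (AlmostAllCritical l ∧ ∀ ℓ ∈ L, Lower l ℓ ∨ Upper l ℓ) :=
  W207.PU.mainW l hl L hL hd

end W207.PU.Old.WindowsNoRH
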